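import Pool.Agent.Helper29.SH.Goals

set_option autoImplicit false

namespace Pool.Agent.Helper85.SH

open Subgroup Pool.H83Shunkov Pool.Agent.Helper29.SH

/-- The group generated by a finite commutative subgroup and an element of finite order which
centralises it is finite and commutative. -/
theorem sup_fin {G : Type} [Group G] (M : Subgroup G) (b : G) (hM : (M : Set G).Finite)
    (hc : ∀ x ∈ M, ∀ y ∈ M, x * y = y * x) (hb : IsOfFinOrder b)
    (hbM : ∀ x ∈ M, x * b = b * x) :
    ((M ⊔ zpowers b : Subgroup G) : Set G).Finite ∧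
      ∀ x ∈ M ⊔ zpowers b, ∀ y ∈ M ⊔ zpowers b, x * y = y * x := by
  have hcz : ∀ x ∈ M, ∀ z ∈ zpowers b, Commute x z := by
    rintro x hx z ⟨n, rfl⟩
    exact Commute.zpow_right (hbM x hx) n
  have comm : ∀ (m : M) (z : zpowers b), Commute (M.subtype m) ((zpowers b).subtype z) :=
    fun m z => hcz m m.2 z z.2
  have hr : (MonoidHom.noncommCoprod M.subtype (zpowers b).subtype comm).range =
      M ⊔ zpowers b := by
    rw [MonoidHom.noncommCoprod_range, Subgroup.range_subtype, Subgroup.range_subtype]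
  have hMf : Finite M := hM.to_subtype
  have hzf : Finite (zpowers b) := finite_zpowers.2 hb
  refine ⟨?_, ?_⟩
  · rw [← hr, MonoidHom.coe_range]
    exact Set.finite_range _
  · intro x hx y hy
    rw [← hr] at hx hy
    obtain ⟨⟨m, z⟩, rfl⟩ := hx
    obtain ⟨⟨m', z'⟩, rfl⟩ := hy
    simp only [MonoidHom.noncommCoprod_apply, Subgroup.coe_subtype]
    have h1 : Commute (m : G) (m' : G) := hc m m.2 m' m'.2
    have h2 : Commute (m : G) (z' : G) := hcz m m.2 z' z'.2
    have h3 : Commute (m' : G) (z : G) := hcz m' m'.2 z z.2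
    have h4 : Commute (z : G) (z' : G) := by
      obtain ⟨i, hi⟩ := z.2
      obtain ⟨j, hj⟩ := z'.2
      rw [← hi, ← hj]
      exact (Commute.refl b).zpow_zpow i j
    exact (h1.mul_right h2).mul_left (h3.symm.mul_right h4)

/-- **AA**. -/
theorem t_AA : S_MAX → S_SEP → S_TFG → S_GLF → S_SSUB → S_RSUB → S_BO → S_BT → S_AA := by
  intro hMAX hSEP hTFG hGLF hSS hRS hBO hBT G _ hRG hSh hInf
  by_contra hno
  obtain ⟨M, hPM, hmax⟩ := hMAX G 1 hno
    (fun M => (M : Set G).Finite ∧ (∀ x ∈ M, ∀ y ∈ M, x * y = y * x) ∧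
      (Tor (centralizer (M : Set G))).Infinite)
    (fun M h => ⟨one_mem M, h.1⟩) ⟨⊥, by simp, by simp, by
      have h1 : Tor (centralizer ((⊥ : Subgroup G) : Set G)) = {g : G | IsOfFinOrder g} := by
        ext t
        simp only [Tor, Set.mem_ofPred_eq, and_iff_right_iff_imp]
        intro _
        rw [mem_centralizer_iff]
        intro h hh
        have : h = 1 := by simpa using hh
        rw [this, one_mul, mul_one]
      rw [h1]
      exact hInf⟩
  obtain ⟨hMf, hMc, hMT⟩ := hPM
  set Y : Subgroup G := centralizer (M : Set G) with hY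
  have hgt : Good (G ⧸ (⊤ : Subgroup G)) := by
    have : Finite (G ⧸ (⊤ : Subgroup G)) := by
      have := QuotientGroup.subsingleton_quotient_top (G := G)
      infer_instance
    exact good_finite _
  obtain ⟨N, hNn, -, hNS, hNG⟩ := hSEP G hRG ⊤ hgt ((M : Set G) \ {1}) (hMf.subset Set.sdiff_subset)
    (fun s hs => ⟨isOfFinOrder_of_mem_finite hMf hs.1, hs.2⟩)
  by_cases h : ∀ t ∈ Y, t ∈ N → IsOfFinOrder t → t = 1
  · have hYG : Good Y := hTFG G Y N hNG h
    refine hno (hGLF G Y 1 hSh hYG hMT ?_ IsOfFinOrder.one)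
    intro k hk
    simpa using hk
  · push Not at h
    obtain ⟨t, htY, htN, hto, ht1⟩ := h
    have hord : orderOf t ≠ 1 := fun h => ht1 (orderOf_eq_one_iff.1 h)
    obtain ⟨p, hp, hpd⟩ := Nat.exists_prime_and_dvd hord
    have hopos : 0 < orderOf t := hto.orderOf_pos
    have hob : orderOf (t ^ (orderOf t / p)) = p := by
      rw [orderOf_pow_orderOf_div hopos.ne' hpd]
    set b : G := t ^ (orderOf t / p) with hb
    have hbY : b ∈ Y := pow_mem htY _
    have hbN : b ∈ N := pow_mem htN _
    have hb1 : b ≠ 1 := fun h => by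
      rw [h, orderOf_one] at hob
      exact hp.one_lt.ne hob
    have hbfin : IsOfFinOrder b := orderOf_pos_iff.1 (hob ▸ hp.pos)
    have hbM : ∀ x ∈ M, x * b = b * x := fun x hx => mem_centralizer_iff.1 hbY x hx
    obtain ⟨hf', hc'⟩ := sup_fin M b hMf hMc hbfin hbM
    have hfinT : (Tor (centralizer ((M ⊔ zpowers b : Subgroup G) : Set G))).Finite := by
      by_contra hinf
      have h1 := hmax (M ⊔ zpowers b) ⟨hf', hc', hinf⟩ le_sup_left
      have h2 : b ∈ M := h1 (mem_sup_right (mem_zpowers b))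
      exact hNS b ⟨h2, hb1⟩ hbN
    have hYS : IsShunkov Y := hSS G Y Y.subtype Y.subtype_injective hSh
    have hYR : RG Y := hRS G Y Y.subtype Y.subtype_injective hRG
    have hYI : InfTor Y := by
      intro hfin
      refine hMT ((hfin.image Y.subtype).subset ?_)
      rintro x ⟨hxY, hx⟩
      refine ⟨⟨x, hxY⟩, ?_, rfl⟩
      exact (Submonoid.isOfFinOrder_coe (H := Y.toSubmonoid)).1 hx
    have hbo : orderOf (⟨b, hbY⟩ : Y) = p := by
      rw [← hob]
      exact (Subgroup.orderOf_mk b hbY)
    have hTb : (Tor (centralizer ({(⟨b, hbY⟩ : Y)} : Set Y))).Finite := by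
      refine Set.Finite.of_finite_image (f := Y.subtype) (hfinT.subset ?_) Y.subtype_injective.injOn
      rintro x ⟨y, ⟨hy1, hy2⟩, rfl⟩
      refine ⟨?_, (Submonoid.isOfFinOrder_coe (H := Y.toSubmonoid)).2 hy2⟩
      have h1 : (M ⊔ zpowers b : Subgroup G) ≤ centralizer ({(y : G)} : Set G) := by
        refine sup_le ?_ ?_
        · intro m hm
          rw [mem_centralizer_singleton_iff]
          exact mem_centralizer_iff.1 y.2 m hm
        · rw [zpowers_le, mem_centralizer_singleton_iff]
          have h3 := mem_centralizer_singleton_iff.1 hy1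
          have h4 := congrArg Y.subtype h3
          simpa using h4.symm
      rw [Subgroup.coe_subtype, mem_centralizer_iff]
      intro m hm
      exact mem_centralizer_singleton_iff.1 (h1 hm)
    have hLF : InLF (⟨b, hbY⟩ : Y) := by
      by_cases h2 : p = 2
      · exact hBT Y _ hYR hYS hYI (hbo.trans h2) hTb
      · exact hBO Y _ hYR hYS hYI (hbo.symm ▸ hp) (by rw [hbo]; exact h2) hTb
    obtain ⟨K, -, hKi, hKl⟩ := hLF
    refine hno ⟨K.map Y.subtype, one_mem _, ?_, hKl.map _⟩
    rw [coe_map]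
    exact hKi.image Y.subtype_injective.injOn

end Pool.Agent.Helper85.SH
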